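import Mathlib
import Pool.Agent.Lib.MP_85963d_gt.Interfaces

/-!
# Averages over the circles `x rot(a,t)`
-/

set_option autoImplicit false

open MeasureTheory Set Filter Topology Quaternion
open scoped Real ContDiff

namespace Pool.Agent.MP85963d.H9

open Pool.Agent.MP85963d SF

theorem cts_SF (F : SF) : Cts F := ⟨F.continuousOn, fun _ x hr _ => F.hom hr x⟩

theorem Cts_add {f g : ℍ → ℝ} (hf : Cts f) (hg : Cts g) : Cts (fun x => f x + g x) :=
  ⟨hf.cont.add hg.cont, fun r x hr hx => by
    change f (r • x) + g (r • x) = f x + g x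
    rw [hf.hom r x hr hx, hg.hom r x hr hx]⟩

theorem Cts_sub {f g : ℍ → ℝ} (hf : Cts f) (hg : Cts g) : Cts (fun x => f x - g x) :=
  ⟨hf.cont.sub hg.cont, fun r x hr hx => by
    change f (r • x) - g (r • x) = f x - g x
    rw [hf.hom r x hr hx, hg.hom r x hr hx]⟩

theorem Cts_mul {f g : ℍ → ℝ} (hf : Cts f) (hg : Cts g) : Cts (fun x => f x * g x) :=
  ⟨hf.cont.mul hg.cont, fun r x hr hx => by
    change f (r • x) * g (r • x) = f x * g x
    rw [hf.hom r x hr hx, hg.hom r x hr hx]⟩

theorem Cts_bdd {f : ℍ → ℝ} (hf : Cts f) : ∃ C, 0 ≤ C ∧ ∀ x, x ≠ 0 → |f x| ≤ C := by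
  obtain ⟨M, hM⟩ := isCompact_shell.exists_bound_of_continuousOn (hf.cont.mono shell_subset)
  refine ⟨max M 0, le_max_right _ _, fun x hx => ?_⟩
  have hn : 0 < ‖x‖ := norm_pos_iff.2 hx
  have h1 : f ((1 / ‖x‖) • x) = f x := hf.hom _ _ (by positivity) hx
  rw [← h1]
  refine (hM _ ?_).trans (le_max_left _ _)
  have : ‖(1 / ‖x‖ : ℝ) • x‖ = 1 := by
    rw [norm_smul, Real.norm_of_nonneg (by positivity)]
    field_simp
  constructor <;> rw [this] <;> norm_num

/-- continuous extension -/
noncomputable def cx (f : ℍ → ℝ) (x : ℍ) : ℝ := min ‖x‖ 1 * f x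

theorem cx_shell (f : ℍ → ℝ) {x : ℍ} (hx : x ∈ shell) : cx f x = f x := by
  rw [cx, min_eq_right hx.1, one_mul]

theorem cx_zero (f : ℍ → ℝ) : cx f 0 = 0 := by simp [cx]

theorem continuous_cx {f : ℍ → ℝ} (hf : Cts f) : Continuous (cx f) := by
  rw [continuous_iff_continuousAt]
  intro x
  by_cases hx : x = 0
  · subst hx
    obtain ⟨C, hC0, hC⟩ := Cts_bdd hf
    have h1 : Tendsto (fun y : ℍ => C * ‖y‖) (𝓝 0) (𝓝 0) := by
      have : Continuous fun y : ℍ => C * ‖y‖ := by fun_prop
      have := this.tendsto 0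
      simpa using this
    rw [ContinuousAt, cx_zero]
    apply squeeze_zero_norm _ h1
    intro y
    by_cases hy : y = 0
    · subst hy; simp [cx_zero]
    · rw [cx, norm_mul, Real.norm_of_nonneg (by positivity), Real.norm_eq_abs]
      calc min ‖y‖ 1 * |f y| ≤ ‖y‖ * C :=
            mul_le_mul (min_le_left _ _) (hC y hy) (abs_nonneg _) (norm_nonneg _)
        _ = C * ‖y‖ := mul_comm _ _
  · have h1 : ContinuousAt f x := hf.cont.continuousAt (isOpen_ne.mem_nhds hx)
    have h2 : ContinuousAt (fun y : ℍ => min ‖y‖ 1) x := by fun_prop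
    exact h2.mul h1

theorem cx_rot {a : ℍ} (ha : IsImUnit a) (f : ℍ → ℝ) (x : ℍ) (t : ℝ) :
    cx f (x * rot a t) = min ‖x‖ 1 * f (x * rot a t) := by
  rw [cx, norm_mul, norm_rot ha, mul_one]

/-- averages over circles -/
noncomputable def avg (a : ℍ) (f : ℍ → ℝ) (x : ℍ) : ℝ :=
  (1 / (2 * π)) * ∫ t in (0:ℝ)..(2 * π), f (x * rot a t)

theorem avgK_eq (f : ℍ → ℝ) : avgK f = avg qK f := rfl
theorem avgI_eq (f : ℍ → ℝ) : avgI f = avg qI f := rfl

theorem continuous_orbit {a : ℍ} (ha : IsImUnit a) {f : ℍ → ℝ} (hf : Cts f) {x : ℍ} (hx : x ≠ 0) :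
    Continuous fun t => f (x * rot a t) := by
  rw [continuous_iff_continuousAt]
  intro t
  have h1 : ContinuousAt f (x * rot a t) :=
    hf.cont.continuousAt (isOpen_ne.mem_nhds (rrot_ne_zero ha hx t))
  have h2 : Continuous fun t => x * rot a t := continuous_const.mul (continuous_rot a)
  exact ContinuousAt.comp (f := fun t => x * rot a t) h1 h2.continuousAt

theorem avg_add {a : ℍ} (ha : IsImUnit a) {f g : ℍ → ℝ} (hf : Cts f) (hg : Cts g) {x : ℍ}
    (hx : x ≠ 0) : avg a (fun z => f z + g z) x = avg a f x + avg a g x := by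
  rw [avg, avg, avg, ← mul_add, intervalIntegral.integral_add
    ((continuous_orbit ha hf hx).intervalIntegrable _ _)
    ((continuous_orbit ha hg hx).intervalIntegrable _ _)]

theorem avg_sub {a : ℍ} (ha : IsImUnit a) {f g : ℍ → ℝ} (hf : Cts f) (hg : Cts g) {x : ℍ}
    (hx : x ≠ 0) : avg a (fun z => f z - g z) x = avg a f x - avg a g x := by
  rw [avg, avg, avg, ← mul_sub, intervalIntegral.integral_sub
    ((continuous_orbit ha hf hx).intervalIntegrable _ _)
    ((continuous_orbit ha hg hx).intervalIntegrable _ _)]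

theorem avg_smul (a : ℍ) (c : ℝ) (f : ℍ → ℝ) (x : ℍ) :
    avg a (fun z => c * f z) x = c * avg a f x := by
  rw [avg, avg, intervalIntegral.integral_const_mul]; ring

theorem avg_congr {a : ℍ} (ha : IsImUnit a) {f g : ℍ → ℝ} (h : ∀ x, x ≠ 0 → f x = g x) {x : ℍ}
    (hx : x ≠ 0) : avg a f x = avg a g x := by
  rw [avg, avg]; congr 2; funext t; exact h _ (rrot_ne_zero ha hx t)

theorem avg_const {a : ℍ} {f : ℍ → ℝ} {x : ℍ} (h : ∀ t, f (x * rot a t) = f x) :
    avg a f x = f x := by
  rw [avg]
  simp only [h]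
  rw [intervalIntegral.integral_const, sub_zero, smul_eq_mul]
  have : (π : ℝ) ≠ 0 := Real.pi_ne_zero
  field_simp

theorem rot_two_pi {a : ℍ} (ha : IsImUnit a) : rot a (2 * π) = -1 := by
  rw [two_mul, rot_add ha, rot_pi, ha.sq]

theorem periodic_orbit {a : ℍ} (ha : IsImUnit a) {f : ℍ → ℝ} (hf : Cts f) {x : ℍ} (hx : x ≠ 0) :
    Function.Periodic (fun t => f (x * rot a t)) (2 * π) := by
  intro t
  change f (x * rot a (t + 2 * π)) = f (x * rot a t)
  rw [rot_add ha, rot_two_pi ha, mul_neg, mul_one, mul_neg]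
  have := hf.hom (-1) (x * rot a t) (by norm_num) (rrot_ne_zero ha hx t)
  simpa using this

theorem avg_rot {a : ℍ} (ha : IsImUnit a) {f : ℍ → ℝ} (hf : Cts f) {x : ℍ} (hx : x ≠ 0) (s : ℝ) :
    avg a f (x * rot a s) = avg a f x := by
  rw [avg, avg]
  congr 1
  have e : (fun t => f (x * rot a s * rot a t)) = fun t => f (x * rot a (s + t)) := by
    funext t; rw [rot_add ha, mul_assoc]
  rw [e, intervalIntegral.integral_comp_add_left (fun t => f (x * rot a t)) s, add_zero]
  have := (periodic_orbit ha hf hx).intervalIntegral_add_eq s 0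
  rw [this, zero_add]

/-- reflection of the circle -/
theorem avg_refl {a : ℍ} (ha : IsImUnit a) {f : ℍ → ℝ} (hf : Cts f) {x : ℍ} (hx : x ≠ 0) :
    (1 / (2 * π)) * ∫ t in (0:ℝ)..(2 * π), f (x * rot a (-t)) = avg a f x := by
  rw [avg]
  congr 1
  rw [intervalIntegral.integral_comp_neg (fun t => f (x * rot a t)), neg_zero]
  have := (periodic_orbit ha hf hx).intervalIntegral_add_eq (-(2 * π)) 0
  rw [zero_add, neg_add_cancel] at this
  exact this

theorem cts_avg {a : ℍ} (ha : IsImUnit a) {f : ℍ → ℝ} (hf : Cts f) : Cts (avg a f) := by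
  constructor
  · have h1 : Continuous fun x : ℍ => ∫ t in (0:ℝ)..(2 * π), cx f (x * rot a t) := by
      apply intervalIntegral.continuous_parametric_intervalIntegral_of_continuous'
      exact (continuous_cx hf).comp (continuous_fst.mul ((continuous_rot a).comp continuous_snd))
    have h2 : ContinuousOn (fun x : ℍ => (1 / (2 * π)) * ((min ‖x‖ 1)⁻¹ *
        ∫ t in (0:ℝ)..(2 * π), cx f (x * rot a t))) {0}ᶜ := by
      apply ContinuousOn.mul continuousOn_const
      apply ContinuousOn.mul _ h1.continuousOn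
      apply ContinuousOn.inv₀ (by fun_prop)
      intro x hx
      have : 0 < ‖x‖ := norm_pos_iff.2 hx
      positivity
    refine h2.congr fun x hx => ?_
    have hx' : x ≠ 0 := hx
    have h0 : 0 < ‖x‖ := norm_pos_iff.2 hx
    have h3 : (min ‖x‖ 1) ≠ 0 := by positivity
    rw [avg]
    congr 1
    simp only [cx_rot ha]
    rw [intervalIntegral.integral_const_mul, ← mul_assoc, inv_mul_cancel₀ h3, one_mul]
  · intro r x hr hx
    rw [avg, avg]
    congr 2
    funext t
    rw [smul_mul_assoc]
    exact hf.hom r _ hr (rrot_ne_zero ha hx t)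

/-- integration against functions invariant under the circle action -/
theorem ip_avg {a : ℍ} (ha : IsImUnit a) {f g : ℍ → ℝ} (hf : Cts f) (hg : Cts g)
    (hfa : ∀ x, x ≠ 0 → ∀ t, f (x * rot a t) = f x) : ip f (avg a g) = ip f g := by
  have hπ : (0:ℝ) ≤ 2 * π := by positivity
  have hπ' : (π : ℝ) ≠ 0 := Real.pi_ne_zero
  have e1 : ip f (avg a g) = (1 / (2 * π)) *
      ∫ x in shell, ∫ t in Ioc (0:ℝ) (2 * π), cx f x * cx g (x * rot a t) := by
    rw [ip, ← integral_const_mul]
    apply setIntegral_congr_fun measurableSet_shell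
    intro x hx
    change f x * avg a g x = 1 / (2 * π) * ∫ t in Ioc (0:ℝ) (2 * π), cx f x * cx g (x * rot a t)
    rw [avg, intervalIntegral.integral_of_le hπ, ← mul_assoc, mul_comm (f x), mul_assoc,
      ← integral_const_mul]
    congr 1
    congr 1
    funext t
    rw [cx_shell f hx, cx_shell g ((mul_mem_shell (norm_rot ha t)).2 hx)]
  have hc : Continuous fun p : ℍ × ℝ => cx f p.1 * cx g (p.1 * rot a p.2) :=
    ((continuous_cx hf).comp continuous_fst).mul ((continuous_cx hg).comp
      (continuous_fst.mul ((continuous_rot a).comp continuous_snd)))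
  have hint : Integrable (Function.uncurry fun (x : ℍ) (t : ℝ) => cx f x * cx g (x * rot a t))
      ((volume.restrict shell).prod (volume.restrict (Ioc (0:ℝ) (2 * π)))) := by
    rw [Measure.prod_restrict]
    have h1 : IntegrableOn (fun p : ℍ × ℝ => cx f p.1 * cx g (p.1 * rot a p.2))
        (shell ×ˢ Icc (0:ℝ) (2 * π)) (volume.prod volume) :=
      hc.continuousOn.integrableOn_compact (isCompact_shell.prod isCompact_Icc)
    exact h1.mono_set (prod_mono le_rfl Ioc_subset_Icc_self)
  rw [e1, integral_integral_swap hint]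
  have e2 : ∀ t : ℝ, ∫ x in shell, cx f x * cx g (x * rot a t) = ∫ x in shell, f x * g x := by
    intro t
    rw [← integral_shell_mul (norm_rot ha t) (fun x => f x * g x)]
    apply setIntegral_congr_fun measurableSet_shell
    intro x hx
    change cx f x * cx g (x * rot a t) = f (x * rot a t) * g (x * rot a t)
    rw [cx_shell f hx, cx_shell g ((mul_mem_shell (norm_rot ha t)).2 hx),
      hfa x (ne_zero_of_mem_shell hx)]
  simp only [e2]
  rw [← intervalIntegral.integral_of_le hπ, intervalIntegral.integral_const, sub_zero, smul_eq_mul,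
    ip]
  field_simp

/-- averages commute with left fields -/
theorem avg_Z {a b : ℍ} (ha : IsImUnit a) (hb : IsImUnit b) (F G : SF)
    (h : ∀ x : ℍ, x ≠ 0 → G x = avg a F x) {x : ℍ} (hx : x ≠ 0) :
    (Z ((1 / 2 : ℝ) • b) G) x = avg a (Z ((1 / 2 : ℝ) • b) F) x := by
  have h1 := hasDerivAt_Z hb G hx 0
  rw [rot_zero, one_mul] at h1
  obtain ⟨M, hM0, hM⟩ := Cts_bdd (cts_SF (Z ((1 / 2 : ℝ) • b) F))
  have key := intervalIntegral.hasDerivAt_integral_of_dominated_loc_of_deriv_le
    (μ := volume) (a := (0:ℝ)) (b := 2 * π) (F := fun s t => F (rot b s * (x * rot a t)))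
    (F' := fun s t => (Z ((1 / 2 : ℝ) • b) F) (rot b s * (x * rot a t))) (x₀ := (0:ℝ)) (s := univ)
    (bound := fun _ => M) Filter.univ_mem
    (Eventually.of_forall fun s => by
      have : Continuous fun t => F (rot b s * (x * rot a t)) := by
        have h3 := continuous_orbit ha (cts_SF F) (lrot_ne_zero hb hx s)
        simpa only [mul_assoc] using h3
      exact this.aestronglyMeasurable)
    (by
      have h3 := continuous_orbit ha (cts_SF F) (lrot_ne_zero hb hx 0)
      simp only [mul_assoc] at h3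
      exact h3.intervalIntegrable _ _)
    (by
      have h3 := continuous_orbit ha (cts_SF (Z ((1 / 2 : ℝ) • b) F)) (lrot_ne_zero hb hx 0)
      simp only [mul_assoc] at h3
      exact h3.aestronglyMeasurable)
    (Eventually.of_forall fun t _ s _ => by
      rw [Real.norm_eq_abs]
      exact hM _ (lrot_ne_zero hb (rrot_ne_zero ha hx t) s))
    (by exact intervalIntegrable_const)
    (Eventually.of_forall fun t _ s _ => hasDerivAt_Z hb F (rrot_ne_zero ha hx t) s)
  have h2 := key.2.const_mul (1 / (2 * π))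
  have e : (fun s => (1 / (2 * π)) * ∫ t in (0:ℝ)..(2 * π), F (rot b s * (x * rot a t)))
      = fun s => G (rot b s * x) := by
    funext s
    rw [h _ (lrot_ne_zero hb hx s), avg]
    simp only [mul_assoc]
  rw [e] at h2
  rw [h1.unique h2, avg]
  simp only [rot_zero, one_mul]

/-- the basic inequality for homogeneous functions -/
theorem frame_ineq_cts {F G : ℍ → ℝ} (hF : Cts F) (hG : Cts G)
    (hFG : ∀ x : ℍ, x ≠ 0 → ∀ t : ℝ,
      HasDerivAt (fun t => F (x * rot qI t)) (G (x * rot qI t)) t)
    (hK : ∀ x : ℍ, x ≠ 0 → F (x * qK) = F x)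
    (hint : ∀ x : ℍ, x ≠ 0 → avgK F x = 0) : nrm F ≤ nrm G := by
  have hπ : (π : ℝ) ≠ 0 := Real.pi_ne_zero
  have key := frame_inequality (continuous_cx hF) (continuous_cx hG)
    (by
      intro z t
      by_cases hz : z = 0
      · subst hz
        simp only [zero_mul, cx_zero]
        exact hasDerivAt_const t 0
      · simp only [cx_rot isImUnit_I]
        exact (hFG z hz t).const_mul _)
    (by
      intro z
      by_cases hz : z = 0
      · subst hz; simp
      · rw [cx, cx, norm_mul, isImUnit_K.norm_eq, mul_one, hK z hz])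
    (by
      intro z
      by_cases hz : z = 0
      · subst hz; simp [cx_zero]
      · simp only [cx_rot isImUnit_K]
        rw [intervalIntegral.integral_const_mul]
        have h1 := hint z hz
        rw [avgK] at h1
        have hc := continuous_orbit isImUnit_K hF hz
        have h2 : ∫ s in π..(2 * π), F (z * rot qK s) = ∫ s in (0:ℝ)..π, F (z * rot qK s) := by
          have h3 : ∀ s, F (z * rot qK (s + π)) = F (z * rot qK s) := by
            intro s
            rw [rot_add isImUnit_K, rot_pi, ← mul_assoc, hK _ (rrot_ne_zero isImUnit_K hz s)]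
          have h4 := intervalIntegral.integral_comp_add_right (a := 0) (b := π)
            (fun s => F (z * rot qK s)) π
          simp only [h3, zero_add] at h4
          rw [h4]; congr 1; ring
        have h5 := intervalIntegral.integral_add_adjacent_intervals
          (hc.intervalIntegrable (μ := volume) 0 π) (hc.intervalIntegrable (μ := volume) π (2 * π))
        rw [h2] at h5
        have h6 : ∫ s in (0:ℝ)..(2 * π), F (z * rot qK s) = 0 := by
          rcases mul_eq_zero.1 h1 with h | h
          · exfalso; revert h; positivity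
          · exact h
        have h7 : ∫ s in (0:ℝ)..π, F (z * rot qK s) = 0 := by linarith
        rw [h7, mul_zero])
  rw [nrm, nrm]
  apply Real.sqrt_le_sqrt
  have e : ∀ f : ℍ → ℝ, ∫ x in shell, cx f x ^ 2 = ∫ x in shell, f x ^ 2 := fun f =>
    setIntegral_congr_fun measurableSet_shell fun x hx => by
      change cx f x ^ 2 = f x ^ 2
      rw [cx_shell f hx]
  rwa [e, e] at key

end Pool.Agent.MP85963d.H9
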