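import Mathlib
import Pool.Agent.Lib.MP_85963d_gt.H9.Avg

/-!
# Module PSI: the inverse of the average over the circles `x rot(i,t)`
-/

set_option autoImplicit false

open MeasureTheory Set Filter Topology Quaternion
open scoped Real ContDiff

namespace Pool.Agent.MP85963d.H9

open Pool.Agent.MP85963d SF

theorem mul_rot_neg {a b : ℍ} (h : b * a = -(a * b)) (t : ℝ) :
    b * rot a t = rot a (-t) * b := by
  simp only [rot, mul_add, add_mul, mul_smul_comm, smul_mul_assoc, mul_one, one_mul, neg_div,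
    Real.cos_neg, Real.sin_neg, h]
  module

theorem IsE.mulK {f : ℍ → ℝ} (h : IsE f) (x : ℍ) : f (x * qK) = f x := by
  have := h.rotK x π
  rwa [rot_pi] at this

theorem IsU.mulI {f : ℍ → ℝ} (h : IsU f) (x : ℍ) : f (x * qI) = f x := by
  have := h.rotI x π
  rwa [rot_pi] at this

theorem isU_avgI {F : ℍ → ℝ} {G : SF} (hc : Cts F) (hF : IsE F)
    (h : ∀ x : ℍ, x ≠ 0 → G x = avgI F x) : IsU G := by
  constructor
  · intro x t
    by_cases hx : x = 0
    · subst hx; simp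
    · rw [h x hx, h _ (rrot_ne_zero isImUnit_I hx t), avgI_eq, avg_rot isImUnit_I hc hx]
  · intro x
    by_cases hx : x = 0
    · subst hx; simp
    · have hk : x * qK ≠ 0 := by
        have := rrot_ne_zero isImUnit_K hx π
        rwa [rot_pi] at this
      rw [h x hx, h _ hk, avgI_eq, ← avg_refl isImUnit_I hc hx, avg]
      congr 2
      funext t
      rw [mul_assoc, mul_rot_neg (a := qI) (b := qK) (by rw [qK_mul_qI, qI_mul_qK, neg_neg]),
        ← mul_assoc, IsE.mulK hF]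

theorem isE_avgK {F : ℍ → ℝ} {G : SF} (hc : Cts F) (hF : IsU F)
    (h : ∀ x : ℍ, x ≠ 0 → G x = avgK F x) : IsE G := by
  constructor
  · intro x t
    by_cases hx : x = 0
    · subst hx; simp
    · rw [h x hx, h _ (rrot_ne_zero isImUnit_K hx t), avgK_eq, avg_rot isImUnit_K hc hx]
  · intro x
    by_cases hx : x = 0
    · subst hx; simp
    · have hk : x * qI ≠ 0 := by
        have := rrot_ne_zero isImUnit_I hx π
        rwa [rot_pi] at this
      rw [h x hx, h _ hk, avgK_eq, ← avg_refl isImUnit_K hc hx, avg]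
      congr 2
      funext t
      rw [mul_assoc, mul_rot_neg (a := qK) (b := qI) (by rw [qK_mul_qI, qI_mul_qK]),
        ← mul_assoc, IsU.mulI hF]

theorem nrm_zero_fun : nrm (fun _ => (0:ℝ)) = 0 := by simp [nrm]

/-- `A_X` is injective on u-functions -/
theorem eq_zero_of_avgK {F : SF} (hF : IsU F) (h : ∀ x : ℍ, x ≠ 0 → avgK F x = 0) : F = 0 := by
  have h0 : Cts (fun _ : ℍ => (0:ℝ)) := ⟨continuousOn_const, fun _ _ _ _ => rfl⟩
  have h1 := frame_ineq_cts (cts_SF F) h0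
    (fun x _ t => by
      simp only [hF.rotI]
      exact hasDerivAt_const t _)
    (fun x _ => hF.mulK x) h
  rw [nrm_zero_fun] at h1
  exact eq_zero_of_nrm (le_antisymm h1 (nrm_nonneg _))

/-- the quaternion which exchanges `i` and `k` -/
noncomputable def qs : ℍ := qI + qK

theorem qs_ne : qs ≠ 0 := by
  intro h
  have h1 : (0:ℝ) + 1 = 0 := by
    have h2 := congrArg (fun q : ℍ => q.imI) h
    have h3 : (qI + qK).imI = qI.imI + qK.imI := Quaternion.imI_add _ _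
    change (qI + qK).imI = 0 at h2
    rw [h3] at h2
    change (1:ℝ) + 0 = 0 at h2
    linarith
  norm_num at h1

theorem qI_mul_qs : qI * qs = qs * qK := by
  rw [qs, mul_add, add_mul, isImUnit_I.sq, isImUnit_K.sq, qI_mul_qK]
  abel

theorem qK_mul_qs : qK * qs = qs * qI := by
  rw [qs, mul_add, add_mul, isImUnit_I.sq, isImUnit_K.sq, qK_mul_qI]
  abel

theorem rotI_mul_qs (t : ℝ) : rot qI t * qs = qs * rot qK t := by
  simp only [rot, mul_add, add_mul, mul_smul_comm, smul_mul_assoc, mul_one, one_mul, qI_mul_qs]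

theorem rotK_mul_qs (t : ℝ) : rot qK t * qs = qs * rot qI t := by
  simp only [rot, mul_add, add_mul, mul_smul_comm, smul_mul_assoc, mul_one, one_mul, qK_mul_qs]

/-- `A_V` is injective on e-functions -/
theorem eq_zero_of_avgI (hM : MNFacts) {n : ℕ} {ψ : SF} (hψ : ψ ∈ EN n)
    (h : ∀ x : ℍ, x ≠ 0 → avgI ψ x = 0) : ψ = 0 := by
  obtain ⟨F, hF, hF'⟩ := hM.rcomp n qs ψ qs_ne hψ.1
  have hE := hψ.2
  have h1 : F = 0 := by
    apply eq_zero_of_avgK
    · constructor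
      · intro x t
        rw [hF', hF', mul_assoc, rotI_mul_qs, ← mul_assoc, hE.rotK]
      · intro x
        rw [hF', hF', mul_assoc, qK_mul_qs, ← mul_assoc, hE.mulI]
    · intro x hx
      have h2 := h (x * qs) (mul_ne_zero hx qs_ne)
      rw [← h2, avgK, avgI]
      congr 2
      funext t
      rw [hF', mul_assoc, rotK_mul_qs, ← mul_assoc]
  apply SF.ext'
  intro x hx
  have h2 := hF' (x * qs⁻¹)
  rw [mul_assoc, inv_mul_cancel₀ qs_ne, mul_one, h1, zero_apply] at h2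
  rw [← h2, zero_apply]

theorem MN_mono (hM : MNFacts) {m n : ℕ} (h : m ≤ n) {F : SF} (hF : F ∈ MN m) : F ∈ MN n :=
  hM.mono m n h hF

theorem EN_mono (hM : MNFacts) {m n : ℕ} (h : m ≤ n) {F : SF} (hF : F ∈ EN m) : F ∈ EN n :=
  ⟨hM.mono m n h hF.1, hF.2⟩

theorem avgI_inj (hM : MNFacts) {m n : ℕ} {ψ ψ' : SF} (hψ : ψ ∈ EN m) (hψ' : ψ' ∈ EN n)
    (h : ∀ x : ℍ, x ≠ 0 → avgI ψ x = avgI ψ' x) : ψ = ψ' := by
  have h1 : ψ - ψ' ∈ EN (max m n) :=
    (EN _).sub_mem (EN_mono hM (le_max_left _ _) hψ) (EN_mono hM (le_max_right _ _) hψ')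
  rw [← sub_eq_zero]
  apply eq_zero_of_avgI hM h1
  intro x hx
  have h2 := avg_sub isImUnit_I (cts_SF ψ) (cts_SF ψ') hx
  have h3 : avgI (ψ - ψ' : SF) x = avg qI (fun z => ψ z - ψ' z) x :=
    avg_congr isImUnit_I (fun z _ => sub_apply ψ ψ' z) hx
  rw [h3, h2, ← avgI_eq, ← avgI_eq, h x hx, sub_self]

theorem finUN (hM : MNFacts) (n : ℕ) : Module.Finite ℝ (UN n) := by
  have := hM.finite n
  exact Submodule.finiteDimensional_of_le (fun F hF => hF.1 : UN n ≤ MN n)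

theorem finEN (hM : MNFacts) (n : ℕ) : Module.Finite ℝ (EN n) := by
  have := hM.finite n
  exact Submodule.finiteDimensional_of_le (fun F hF => hF.1 : EN n ≤ MN n)

/-- the average over `x rot(i,t)` as a linear map -/
noncomputable def AI (hM : MNFacts) (n : ℕ) : EN n →ₗ[ℝ] UN n where
  toFun ψ := ⟨(hM.avgI_mem n ψ.1 ψ.2.1).choose,
    ⟨(hM.avgI_mem n ψ.1 ψ.2.1).choose_spec.1,
      isU_avgI (cts_SF ψ.1) ψ.2.2 (hM.avgI_mem n ψ.1 ψ.2.1).choose_spec.2⟩⟩
  map_add' ψ ψ' := by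
    apply Subtype.ext
    apply SF.ext'
    intro x hx
    simp only [Submodule.coe_add, add_apply]
    rw [(hM.avgI_mem n _ (ψ + ψ').2.1).choose_spec.2 x hx,
      (hM.avgI_mem n _ ψ.2.1).choose_spec.2 x hx, (hM.avgI_mem n _ ψ'.2.1).choose_spec.2 x hx]
    have h2 := avg_add isImUnit_I (cts_SF ψ.1) (cts_SF ψ'.1) hx
    rw [avgI_eq, avgI_eq, avgI_eq, ← h2]
    exact avg_congr isImUnit_I (fun z _ => add_apply ψ.1 ψ'.1 z) hx
  map_smul' c ψ := by
    apply Subtype.ext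
    apply SF.ext'
    intro x hx
    simp only [Submodule.coe_smul, smul_apply, RingHom.id_apply]
    rw [(hM.avgI_mem n _ (c • ψ).2.1).choose_spec.2 x hx,
      (hM.avgI_mem n _ ψ.2.1).choose_spec.2 x hx]
    have h2 := avg_smul qI c ψ.1 x
    rw [avgI_eq, avgI_eq, ← h2]
    exact avg_congr isImUnit_I (fun z _ => smul_apply c ψ.1 z) hx

theorem AI_apply (hM : MNFacts) (n : ℕ) (ψ : EN n) (x : ℍ) (hx : x ≠ 0) :
    (AI hM n ψ : SF) x = avgI ψ.1 x :=
  (hM.avgI_mem n ψ.1 ψ.2.1).choose_spec.2 x hx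

/-- the average over `x rot(k,t)` as a linear map -/
noncomputable def AK (hM : MNFacts) (n : ℕ) : UN n →ₗ[ℝ] EN n where
  toFun ψ := ⟨(hM.avgK_mem n ψ.1 ψ.2.1).choose,
    ⟨(hM.avgK_mem n ψ.1 ψ.2.1).choose_spec.1,
      isE_avgK (cts_SF ψ.1) ψ.2.2 (hM.avgK_mem n ψ.1 ψ.2.1).choose_spec.2⟩⟩
  map_add' ψ ψ' := by
    apply Subtype.ext
    apply SF.ext'
    intro x hx
    simp only [Submodule.coe_add, add_apply]
    rw [(hM.avgK_mem n _ (ψ + ψ').2.1).choose_spec.2 x hx,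
      (hM.avgK_mem n _ ψ.2.1).choose_spec.2 x hx, (hM.avgK_mem n _ ψ'.2.1).choose_spec.2 x hx]
    have h2 := avg_add isImUnit_K (cts_SF ψ.1) (cts_SF ψ'.1) hx
    rw [avgK_eq, avgK_eq, avgK_eq, ← h2]
    exact avg_congr isImUnit_K (fun z _ => add_apply ψ.1 ψ'.1 z) hx
  map_smul' c ψ := by
    apply Subtype.ext
    apply SF.ext'
    intro x hx
    simp only [Submodule.coe_smul, smul_apply, RingHom.id_apply]
    rw [(hM.avgK_mem n _ (c • ψ).2.1).choose_spec.2 x hx,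
      (hM.avgK_mem n _ ψ.2.1).choose_spec.2 x hx]
    have h2 := avg_smul qK c ψ.1 x
    rw [avgK_eq, avgK_eq, ← h2]
    exact avg_congr isImUnit_K (fun z _ => smul_apply c ψ.1 z) hx

theorem AK_apply (hM : MNFacts) (n : ℕ) (ψ : UN n) (x : ℍ) (hx : x ≠ 0) :
    (AK hM n ψ : SF) x = avgK ψ.1 x :=
  (hM.avgK_mem n ψ.1 ψ.2.1).choose_spec.2 x hx

theorem AI_injective (hM : MNFacts) (n : ℕ) : Function.Injective (AI hM n) := by
  intro ψ ψ' h
  apply Subtype.ext
  apply avgI_inj hM ψ.2 ψ'.2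
  intro x hx
  rw [← AI_apply hM n ψ x hx, ← AI_apply hM n ψ' x hx, h]

theorem AK_injective (hM : MNFacts) (n : ℕ) : Function.Injective (AK hM n) := by
  intro ψ ψ' h
  have h1 : (ψ - ψ' : UN n) = 0 := by
    apply Subtype.ext
    apply eq_zero_of_avgK (ψ - ψ').2.2
    intro x hx
    rw [← AK_apply hM n (ψ - ψ') x hx]
    have h2 : AK hM n (ψ - ψ') = 0 := by
      have h3 : AK hM n (ψ - ψ') = AK hM n ψ - AK hM n ψ' := map_sub (AK hM n) ψ ψ'
      rw [h3, h]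
      exact sub_self (AK hM n ψ')
    rw [h2]
    exact zero_apply x
  exact sub_eq_zero.1 h1

theorem finrank_eq (hM : MNFacts) (n : ℕ) :
    Module.finrank ℝ (EN n) = Module.finrank ℝ (UN n) := by
  have := finUN hM n
  have := finEN hM n
  exact le_antisymm (LinearMap.finrank_le_finrank_of_injective (AI_injective hM n))
    (LinearMap.finrank_le_finrank_of_injective (AK_injective hM n))

theorem AI_surjective (hM : MNFacts) (n : ℕ) : Function.Surjective (AI hM n) := by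
  have := finUN hM n
  have := finEN hM n
  have key : Function.Injective (AI hM n) ↔ Function.Surjective (AI hM n) :=
    LinearMap.injective_iff_surjective_of_finrank_eq_finrank (K := ℝ) (V := EN n) (V₂ := UN n)
      (finrank_eq hM n)
  exact key.1 (AI_injective hM n)

theorem AK_surjective (hM : MNFacts) (n : ℕ) : Function.Surjective (AK hM n) := by
  have := finUN hM n
  have := finEN hM n
  have key : Function.Injective (AK hM n) ↔ Function.Surjective (AK hM n) :=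
    LinearMap.injective_iff_surjective_of_finrank_eq_finrank (K := ℝ) (V := UN n) (V₂ := EN n)
      (finrank_eq hM n).symm
  exact key.1 (AK_injective hM n)

theorem psi_eq (hM : MNFacts) {n : ℕ} {ψ y : SF} (hψ : ψ ∈ EN n)
    (h : ∀ x : ℍ, x ≠ 0 → avgI ψ x = y x) : psi y = ψ := by
  have h0 : ∃ ψ : SF, (∃ n, ψ ∈ EN n) ∧ ∀ x : ℍ, x ≠ 0 → avgI ψ x = y x := ⟨ψ, ⟨n, hψ⟩, h⟩
  have h1 : psi y = h0.choose := by rw [psi]; exact dif_pos h0
  obtain ⟨⟨m, hm⟩, h2⟩ := h0.choose_spec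
  rw [h1]
  exact avgI_inj hM hm hψ fun x hx => by rw [h2 x hx, h x hx]

theorem psi_spec (hM : MNFacts) {n : ℕ} {y : SF} (hy : y ∈ UN n) :
    psi y ∈ EN n ∧ ∀ x : ℍ, x ≠ 0 → avgI (psi y) x = y x := by
  obtain ⟨ψ, hψ⟩ := AI_surjective hM n ⟨y, hy⟩
  have h1 : ∀ x : ℍ, x ≠ 0 → avgI ψ.1 x = y x := fun x hx => by
    rw [← AI_apply hM n ψ x hx, hψ]
  rw [psi_eq hM ψ.2 h1]
  exact ⟨ψ.2, h1⟩

theorem Z_right {F : SF} {ρ : ℍ} (hρ : ρ ≠ 0) (h : ∀ x : ℍ, F (x * ρ) = F x) (a : ℍ) (x : ℍ) :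
    (Z a F) (x * ρ) = (Z a F) x := by
  by_cases hx : x = 0
  · subst hx; simp
  · have h1 : HasFDerivAt F (fderiv ℝ F (rm ρ x)) (rm ρ x) := F.hasFDerivAt (mul_ne_zero hx hρ)
    have h2 := h1.comp x (rm ρ).hasFDerivAt
    have e : (F : ℍ → ℝ) ∘ (rm ρ) = F := by funext y; exact h y
    rw [e] at h2
    rw [Z_apply, Z_apply, h2.fderiv]
    simp [mul_assoc]

theorem isU_Z {F : SF} (h : IsU F) (a : ℍ) : IsU (Z a F) :=
  ⟨fun x t => Z_right (rot_ne_zero isImUnit_I t) (fun x => h.rotI x t) a x,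
    fun x => Z_right (by rw [← rot_pi qK]; exact rot_ne_zero isImUnit_K π)
      (fun x => h.mulK x) a x⟩

theorem isE_Z {F : SF} (h : IsE F) (a : ℍ) : IsE (Z a F) :=
  ⟨fun x t => Z_right (rot_ne_zero isImUnit_K t) (fun x => h.rotK x t) a x,
    fun x => Z_right (by rw [← rot_pi qI]; exact rot_ne_zero isImUnit_I π)
      (fun x => h.mulI x) a x⟩

theorem UN_Z (hM : MNFacts) {n : ℕ} (a : ℍ) {y : SF} (hy : y ∈ UN n) : Z a y ∈ UN n :=
  ⟨hM.Z_mem n a y hy.1, isU_Z hy.2 a⟩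

theorem EN_Z (hM : MNFacts) {n : ℕ} (a : ℍ) {y : SF} (hy : y ∈ EN n) : Z a y ∈ EN n :=
  ⟨hM.Z_mem n a y hy.1, isE_Z hy.2 a⟩

theorem psi_add' (hM : MNFacts) {n : ℕ} {y z : SF} (hy : y ∈ UN n) (hz : z ∈ UN n) :
    psi (y + z) = psi y + psi z := by
  obtain ⟨h1, h2⟩ := psi_spec hM hy
  obtain ⟨h3, h4⟩ := psi_spec hM hz
  apply psi_eq hM ((EN n).add_mem h1 h3)
  intro x hx
  rw [add_apply, ← h2 x hx, ← h4 x hx, avgI_eq, avgI_eq, avgI_eq,
    ← avg_add isImUnit_I (cts_SF _) (cts_SF _) hx]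
  exact avg_congr isImUnit_I (fun z _ => add_apply _ _ z) hx

theorem psi_dz (hM : MNFacts) {n : ℕ} (a : Fin 3) {y : SF} (hy : y ∈ UN n) :
    psi (DZ a y) = DZ a (psi y) := by
  obtain ⟨h1, h2⟩ := psi_spec hM hy
  apply psi_eq hM (EN_Z hM _ h1)
  intro x hx
  exact (avg_Z isImUnit_I (isImUnit_qU a) (psi y) y (fun x hx => (h2 x hx).symm) hx).symm

theorem psi_of (hM : MNFacts) : PsiFacts where
  mem n y hy := (psi_spec hM hy).1
  avg n y hy := (psi_spec hM hy).2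
  inj n ψ ψ' hψ hψ' h := avgI_inj hM hψ hψ' h
  surj n ψ hψ := ⟨AI hM n ⟨ψ, hψ⟩, (AI hM n ⟨ψ, hψ⟩).2,
    psi_eq hM hψ fun x hx => (AI_apply hM n ⟨ψ, hψ⟩ x hx).symm⟩
  add n y z hy hz := psi_add' hM hy hz
  smul n c y hy := by
    obtain ⟨h1, h2⟩ := psi_spec hM hy
    apply psi_eq hM ((EN n).smul_mem c h1)
    intro x hx
    rw [smul_apply, ← h2 x hx, avgI_eq, avgI_eq, ← avg_smul]
    exact avg_congr isImUnit_I (fun z _ => smul_apply _ _ z) hx
  dz n a y hy := psi_dz hM a hy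
  lap n y hy := by
    have h0 : ∀ a : Fin 3, DZ a (DZ a y) ∈ UN n := fun a => UN_Z hM _ (UN_Z hM _ hy)
    have h1 : ∀ a : Fin 3, psi (DZ a (DZ a y)) = DZ a (DZ a (psi y)) := fun a => by
      have h2 : DZ a y ∈ UN n := UN_Z hM _ hy
      rw [psi_dz hM a h2, psi_dz hM a hy]
    rw [Lap_eq, Lap_eq, psi_add' hM ((UN n).add_mem (h0 0) (h0 1)) (h0 2),
      psi_add' hM (h0 0) (h0 1), h1, h1, h1]
  lcomp n ρ y z hρ hy hz h x := by
    obtain ⟨h1, h2⟩ := psi_spec hM hy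
    obtain ⟨G, hG, hG'⟩ := hM.lcomp n ρ (psi y) hρ h1.1
    have hE : IsE G := ⟨fun x t => by rw [hG', hG', ← mul_assoc, h1.2.rotK],
      fun x => by rw [hG', hG', ← mul_assoc, h1.2.mulI]⟩
    have h3 : psi z = G := by
      apply psi_eq hM ⟨hG, hE⟩
      intro x hx
      rw [h x, ← h2 (ρ * x) (mul_ne_zero hρ hx), avgI, avgI]
      congr 2
      funext t
      rw [hG', mul_assoc]
    rw [h3, hG']
  dz_mem n a y hy := UN_Z hM _ hy
  lap_mem n y hy := by
    have h0 : ∀ a : Fin 3, DZ a (DZ a y) ∈ UN n := fun a => UN_Z hM _ (UN_Z hM _ hy)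
    rw [Lap_eq]
    exact (UN n).add_mem ((UN n).add_mem (h0 0) (h0 1)) (h0 2)
  pair n η hη f hf hU := by
    obtain ⟨h1, h2⟩ := psi_spec hM hη
    rw [← ip_avg isImUnit_I hf (cts_SF (psi η)) (fun x _ t => hU.rotI x t)]
    rw [ip, ip]
    apply setIntegral_congr_fun measurableSet_shell
    intro x hx
    change f x * avg qI (psi η) x = f x * η x
    rw [← avgI_eq, h2 x (ne_zero_of_mem_shell hx)]

end Pool.Agent.MP85963d.H9
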