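import Mathlib
import Pool.Agent.Lib.MP_85963d_gt.H9.Psi

/-!
# Module PEST: the Pestov bound
-/

set_option autoImplicit false

open MeasureTheory Set Filter Topology Quaternion
open scoped Real ContDiff

namespace Pool.Agent.MP85963d.H9

open Pool.Agent.MP85963d SF

theorem ip_congr_left {f g h : ℍ → ℝ} (e : ∀ x : ℍ, x ≠ 0 → f x = g x) : ip f h = ip g h := by
  rw [ip, ip]
  exact setIntegral_congr_fun measurableSet_shell fun x hx => by
    change f x * h x = g x * h x
    rw [e x (ne_zero_of_mem_shell hx)]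

theorem ip_congr_right {f g h : ℍ → ℝ} (e : ∀ x : ℍ, x ≠ 0 → f x = g x) : ip h f = ip h g := by
  rw [ip_comm, ip_congr_left e, ip_comm]

theorem ip_sub_left' (F G K : SF) : ip (F - G : SF) K = ip F K - ip G K := by
  rw [sub_eq_add_neg, ip_add_left, ip_neg_left, sub_eq_add_neg]

theorem MN_unique {n : ℕ} {F G : SF} (hF : F ∈ MN n) (hG : G ∈ MN n)
    (h : ∀ K ∈ MN n, ip F K = ip G K) : F = G := by
  have h1 := h (F - G) ((MN n).sub_mem hF hG)
  have h2 : ip (F - G : SF) (F - G : SF) = 0 := by rw [ip_sub_left', h1, sub_self]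
  rw [← nrm_sq'] at h2
  have h3 : nrm (F - G : SF) = 0 := by simpa using h2
  exact sub_eq_zero.1 (eq_zero_of_nrm h3)

theorem nrm_add_le (F G : SF) : nrm (F + G : SF) ≤ nrm F + nrm G := by
  have h1 : nrm (F + G : SF) ^ 2 = nrm F ^ 2 + 2 * ip F G + nrm G ^ 2 := by
    rw [nrm_sq', nrm_sq', nrm_sq', ip_add_left, ip_add_right, ip_add_right, ip_comm G F]
    ring
  have h2 := (abs_le.1 (abs_ip_le F.continuousOn G.continuousOn)).2
  have h3 : nrm (F + G : SF) ^ 2 ≤ (nrm F + nrm G) ^ 2 := by nlinarith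
  exact (sq_le_sq₀ (nrm_nonneg _) (add_nonneg (nrm_nonneg _) (nrm_nonneg _))).1 h3

theorem nrm_sub_le (F G : SF) : nrm (F - G : SF) ≤ nrm F + nrm G := by
  have h := nrm_add_le F (-G)
  have e : nrm (-G : SF) = nrm G := by
    rw [nrm, nrm]; congr 2; funext x; rw [neg_apply]; ring
  rwa [e, ← sub_eq_add_neg] at h

/-- projections contract -/
theorem nrm_proj_le {f : ℍ → ℝ} (hf : Cts f) {F : SF} (h : ip f F = ip F F) : nrm F ≤ nrm f := by
  have h1 := (abs_le.1 (abs_ip_le hf.cont F.continuousOn)).2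
  rw [h, ← nrm_sq'] at h1
  by_contra hlt
  push Not at hlt
  have h2 := nrm_nonneg f
  nlinarith

theorem proj_inv (hM : MNFacts) {n : ℕ} {f : ℍ → ℝ} {ρ : ℍ} (hρ : ‖ρ‖ = 1)
    (hfρ : ∀ x, f (x * ρ) = f x) {F : SF} (hF : F ∈ MN n) (h : ∀ G ∈ MN n, ip f G = ip F G) :
    ∀ x : ℍ, F (x * ρ) = F x := by
  have h0 : ρ ≠ 0 := fun h0 => by simp [h0] at hρ
  obtain ⟨H, hH, hH'⟩ := hM.rcomp n ρ F h0 hF
  have key : H = F := by
    apply MN_unique hH hF
    intro K hK
    obtain ⟨K', hK', hK''⟩ := hM.rcomp n ρ⁻¹ K (inv_ne_zero h0) hK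
    have e1 : ∀ x : ℍ, K' (x * ρ) = K x := fun x => by
      rw [hK'', mul_assoc, mul_inv_cancel₀ h0, mul_one]
    have e2 : ∀ g : ℍ → ℝ, ∫ x in shell, g (x * ρ) * K x = ip g K' := by
      intro g
      rw [ip, ← integral_shell_mul hρ (fun x => g x * K' x)]
      congr 1
      funext x
      rw [e1]
    rw [← h K hK]
    have e3 : ip H K = ∫ x in shell, F (x * ρ) * K x := by
      rw [ip]; congr 1; funext x; rw [hH']
    have e4 : ip f K = ∫ x in shell, f (x * ρ) * K x := by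
      rw [ip]; congr 1; funext x; rw [hfρ]
    rw [e3, e4, e2, e2, h K' hK']
  intro x
  rw [← hH', key]

theorem isE_avgK' {F : ℍ → ℝ} {G : SF} (hc : Cts F) (hF : ∀ x, F (x * qI) = F x)
    (h : ∀ x : ℍ, x ≠ 0 → G x = avgK F x) : IsE G := by
  constructor
  · intro x t
    by_cases hx : x = 0
    · subst hx; simp
    · rw [h x hx, h _ (rrot_ne_zero isImUnit_K hx t), avgK_eq, avg_rot isImUnit_K hc hx]
  · intro x
    by_cases hx : x = 0
    · subst hx; simp
    · have hk : x * qI ≠ 0 := by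
        have := rrot_ne_zero isImUnit_I hx π
        rwa [rot_pi] at this
      rw [h x hx, h _ hk, avgK_eq, ← avg_refl isImUnit_K hc hx, avg]
      congr 2
      funext t
      rw [mul_assoc, mul_rot_neg (a := qK) (b := qI) (by rw [qK_mul_qI, qI_mul_qK]),
        ← mul_assoc, hF]

theorem pest_of (hM : MNFacts) : PestStatement := by
  intro n η hη F G hF hG hFK hFG
  obtain ⟨F', hF', hp⟩ := hM.proj n F hF
  have hpV := hM.projV n F G hF hG hFG F' hF' hp
  have kI := proj_inv hM isImUnit_I.norm_eq hFK.mulI hF' hp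
  have kK := proj_inv hM isImUnit_K.norm_eq hFK.mulK hF' hp
  have hDV : DV F' ∈ MN n := hM.R_mem n _ F' hF'
  have n1 : nrm F' ≤ nrm F := nrm_proj_le hF (hp F' hF')
  have n2 : nrm (DV F') ≤ nrm G := nrm_proj_le hG (hpV (DV F') hDV)
  -- the u-function with the same X-average
  obtain ⟨A, hA, hA'⟩ := hM.avgK_mem n F' hF'
  have hAE : IsE A := isE_avgK' (cts_SF F') kI hA'
  obtain ⟨f, hf⟩ := AK_surjective hM n ⟨A, ⟨hA, hAE⟩⟩
  have hfA : ∀ x : ℍ, x ≠ 0 → avgK f.1 x = avgK F' x := fun x hx => by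
    rw [← AK_apply hM n f x hx, hf, ← hA' x hx]
  have hfU := f.2.2
  -- the inequality for the difference
  have n3 : nrm (F' - f.1 : SF) ≤ nrm (DV F') := by
    apply frame_ineq_cts (cts_SF _) (cts_SF _)
    · intro x hx t
      have h1 := hasDerivAt_DV F' hx t
      have h2 := h1.sub_const (f.1 x)
      have e : (fun t => (F' - f.1 : SF) (x * rot qI t)) = fun t => F' (x * rot qI t) - f.1 x := by
        funext t
        rw [sub_apply, hfU.rotI]
      rw [e]
      exact h2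
    · intro x _
      rw [sub_apply, sub_apply, kK, hfU.mulK]
    · intro x hx
      have h2 := avg_sub isImUnit_K (cts_SF F') (cts_SF f.1) hx
      have h3 : avgK (F' - f.1 : SF) x = avg qK (fun z => F' z - f.1 z) x :=
        avg_congr isImUnit_K (fun z _ => sub_apply F' f.1 z) hx
      rw [h3, h2, ← avgK_eq, ← avgK_eq, hfA x hx, sub_self]
  have n4 : nrm f.1 ≤ nrm F + nrm G := by
    have h1 := nrm_sub_le F' (F' - f.1)
    have e : F' - (F' - f.1) = f.1 := by abel
    rw [e] at h1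
    linarith
  obtain ⟨hψ, hψ'⟩ := psi_spec hM hη
  have hinv : ∀ x : ℍ, x ≠ 0 → ∀ t, (psi η) (x * rot qK t) = (psi η) x :=
    fun x _ t => hψ.2.rotK x t
  have e1 : ip F (psi η) = ip f.1 η := by
    rw [hp _ hψ.1, ip_comm, ← ip_avg isImUnit_K (cts_SF (psi η)) (cts_SF F') hinv,
      ip_congr_right (f := avg qK F') (g := avg qK f.1) (fun x hx => (hfA x hx).symm),
      ip_avg isImUnit_K (cts_SF (psi η)) (cts_SF f.1) hinv, ip_comm]
    exact (psi_of hM).pair n η hη f.1 (cts_SF f.1) hfU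
  rw [e1]
  exact (abs_ip_le f.1.continuousOn η.continuousOn).trans
    (mul_le_mul_of_nonneg_right n4 (nrm_nonneg _))

end Pool.Agent.MP85963d.H9
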